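import Pool.Agent.H76.SD.Targets

/-!
# SETH for semidefinite programming: a refutation on one cell
-/

namespace Pool.Agent.H2.SD

open Finset
open Pool.Agent.H76.SD

theorem cel : T_CEL := by
  intro X _ St dim size ord A A0 pt w w0 I H de hf hb hS hH
  rcases St.eq_empty_or_nonempty with rfl | hne
  · simp
  set l : X → ℝ := fun x => ∑ k, w k * pt x k + w0 with hl
  have hn : (0 : ℝ) < St.card := by exact_mod_cast hne.card_pos
  have key : ∀ η : ℝ, 0 < η →
      de * (∑ x ∈ St, H x + η * St.card) ≤ ∑ x ∈ St, H x * l x + η * ∑ x ∈ St, l x := by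
    intro η hη
    obtain ⟨he, hhe⟩ : ∃ he : ℝ, he = ∑ x ∈ St, H x + η * St.card := ⟨_, rfl⟩
    have hhe' : he = ∑ x ∈ St, (H x + η) := by
      rw [hhe, sum_add_distrib]; simp [mul_comm]
    have hpos : 0 < he := by
      rw [hhe]
      have : 0 < η * St.card := mul_pos hη hn
      linarith
    have hy : ∀ i ∈ I, (A0 i + ∑ k, ((∑ x ∈ St, (H x + η) * pt x k) / he) • A i k).PosSemidef := by
      intro i hi
      have e : A0 i + ∑ k, ((∑ x ∈ St, (H x + η) * pt x k) / he) • A i k =
          he⁻¹ • ((∑ x ∈ St, H x • (A0 i + ∑ k, pt x k • A i k)) +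
            η • ∑ x ∈ St, (A0 i + ∑ k, pt x k • A i k)) := by
        have e1 : (∑ x ∈ St, H x • (A0 i + ∑ k, pt x k • A i k)) +
            η • ∑ x ∈ St, (A0 i + ∑ k, pt x k • A i k) =
            he • A0 i + ∑ k, (∑ x ∈ St, (H x + η) * pt x k) • A i k := by
          rw [smul_sum, ← sum_add_distrib, hhe', sum_smul]
          have e2 : ∀ k, (∑ x ∈ St, (H x + η) * pt x k) • A i k =
              ∑ x ∈ St, ((H x + η) * pt x k) • A i k := fun k => sum_smul
          simp_rw [e2]
          rw [sum_comm, ← sum_add_distrib]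
          refine sum_congr rfl fun x _ => ?_
          rw [← add_smul, smul_add, smul_sum]
          simp_rw [smul_smul]
        rw [e1, smul_add, smul_smul, inv_mul_cancel₀ hpos.ne', one_smul, smul_sum]
        congr 1
        refine sum_congr rfl fun k _ => ?_
        rw [smul_smul]
        congr 1
        field_simp
      rw [e]
      refine Matrix.PosSemidef.smul ?_ (inv_nonneg.mpr hpos.le)
      refine Matrix.PosSemidef.add (hH i hi) ?_
      refine Matrix.PosSemidef.smul ?_ hη.le
      exact Matrix.posSemidef_sum _ fun x hx => hf x hx i hi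
    have h1 := hb _ hy
    have e3 : ∑ k, w k * ((∑ x ∈ St, (H x + η) * pt x k) / he) + w0 =
        he⁻¹ * (∑ x ∈ St, H x * l x + η * ∑ x ∈ St, l x) := by
      have e4 : ∑ x ∈ St, H x * l x + η * ∑ x ∈ St, l x =
          (∑ k, w k * (∑ x ∈ St, (H x + η) * pt x k)) + he * w0 := by
        rw [mul_sum, ← sum_add_distrib, hhe', sum_mul]
        simp_rw [mul_sum]
        rw [sum_comm, ← sum_add_distrib]
        refine sum_congr rfl fun x _ => ?_
        rw [hl]
        simp only
        rw [← add_mul, mul_add, mul_sum]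
        congr 1
        refine sum_congr rfl fun k _ => ?_
        ring
      rw [e4, mul_add, ← mul_assoc, inv_mul_cancel₀ hpos.ne', one_mul, mul_sum]
      congr 1
      refine sum_congr rfl fun k _ => ?_
      field_simp
    rw [e3, ← div_eq_inv_mul, le_div_iff₀ hpos] at h1
    rw [← hhe]
    exact h1
  refine le_of_forall_pos_le_add fun ε hε => ?_
  set c : ℝ := ∑ x ∈ St, l x - de * St.card with hc
  have hc1 : 0 < |c| + 1 := by positivity
  have h2 := key (ε / (|c| + 1)) (by positivity)
  have h3 : ε / (|c| + 1) * c ≤ ε := by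
    have h4 : ε / (|c| + 1) * c ≤ ε / (|c| + 1) * (|c| + 1) := by
      refine mul_le_mul_of_nonneg_left ?_ (by positivity)
      have := le_abs_self c
      linarith
    rwa [div_mul_cancel₀ _ hc1.ne'] at h4
  have h5 : ε / (|c| + 1) * c = ε / (|c| + 1) * ∑ x ∈ St, l x - de * (ε / (|c| + 1) * St.card) := by
    rw [hc]; ring
  nlinarith [h2, h3, h5]

end Pool.Agent.H2.SD
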