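import Pool.Agent.H76.SD.Targets

/-!
# SETH for semidefinite programming: the main inequality
-/

namespace Pool.Agent.H2.SD

open Finset Matrix
open Pool.Agent.H76.SD
open Pool.Agent.H1.LP (Loc PD Viol Sys supp ip val Agree FS Typ kk)

/-- sum of the squares of the entries of a product with a real matrix -/
lemma tr_tt {r : ℕ} (A : Matrix (Fin r) (Fin r) ℝ) :
    (Aᵀ * A).trace = ∑ u, ∑ v, (A u v) ^ 2 := by
  rw [Matrix.trace, sum_comm]
  refine sum_congr rfl fun v _ => ?_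
  rw [diag_apply, Matrix.mul_apply]
  refine sum_congr rfl fun u _ => ?_
  rw [transpose_apply, pow_two]

lemma tr_sq {r : ℕ} (C G : Matrix (Fin r) (Fin r) ℝ) (hG : Gᵀ = G) :
    (Cᵀ * C * (G * G)).trace = ∑ u, ∑ v, ((C * G) u v) ^ 2 := by
  rw [← tr_tt, Matrix.transpose_mul, hG, ← Matrix.mul_assoc, Matrix.trace_mul_comm _ G,
    Matrix.mul_assoc, Matrix.mul_assoc]

/-- the sum of the squared lengths for one real vector -/
lemma real_vec {r : ℕ} {ι : Type} [Fintype ι] (C V : ι → Matrix (Fin r) (Fin r) ℝ)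
    (hC : ∀ x, V x = (C x)ᵀ * C x) (hV : (1 - ∑ x, V x).PosSemidef) (a : Fin r → ℝ) :
    ∑ x, ∑ u, (∑ w, C x u w * a w) ^ 2 ≤ ∑ w, (a w) ^ 2 := by
  have h1 : 0 ≤ a ⬝ᵥ ((1 - ∑ x, V x) *ᵥ a) := by
    have := hV.dotProduct_mulVec_nonneg a
    simpa using this
  have h2 : ∀ x, a ⬝ᵥ (V x *ᵥ a) = ∑ u, (∑ w, C x u w * a w) ^ 2 := by
    intro x
    rw [hC, ← Matrix.mulVec_mulVec, Matrix.dotProduct_mulVec, Matrix.vecMul_transpose]
    rw [dotProduct]
    refine sum_congr rfl fun u _ => ?_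
    rw [pow_two, mulVec, dotProduct]
  have h3 : a ⬝ᵥ ((∑ x, V x) *ᵥ a) = ∑ x, a ⬝ᵥ (V x *ᵥ a) := by
    rw [Matrix.sum_mulVec, dotProduct_sum]
  rw [Matrix.sub_mulVec, dotProduct_sub, one_mulVec, h3] at h1
  have h4 : a ⬝ᵥ a = ∑ w, (a w) ^ 2 := by
    rw [dotProduct]
    refine sum_congr rfl fun u _ => ?_
    ring
  rw [h4] at h1
  simp_rw [h2] at h1
  linarith

lemma norm_split {r : ℕ} (b : Fin r → ℝ) (z : Fin r → ℂ) :
    ‖∑ w, (b w : ℂ) * z w‖ ^ 2 = (∑ w, b w * (z w).re) ^ 2 + (∑ w, b w * (z w).im) ^ 2 := by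
  rw [← Complex.normSq_eq_norm_sq, Complex.normSq_apply]
  have h1 : (∑ w, (b w : ℂ) * z w).re = ∑ w, b w * (z w).re := by
    rw [Complex.re_sum]
    refine sum_congr rfl fun w _ => ?_
    simp
  have h2 : (∑ w, (b w : ℂ) * z w).im = ∑ w, b w * (z w).im := by
    rw [Complex.im_sum]
    refine sum_congr rfl fun w _ => ?_
    simp
  rw [h1, h2]
  ring

/-- the sum of the squared lengths for one complex vector -/
lemma cplx_vec {r : ℕ} {ι : Type} [Fintype ι] (C V : ι → Matrix (Fin r) (Fin r) ℝ)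
    (hC : ∀ x, V x = (C x)ᵀ * C x) (hV : (1 - ∑ x, V x).PosSemidef) (z : Fin r → ℂ) :
    ∑ x, ∑ u, ‖∑ w, (C x u w : ℂ) * z w‖ ^ 2 ≤ ∑ w, ‖z w‖ ^ 2 := by
  have h1 := real_vec C V hC hV (fun w => (z w).re)
  have h2 := real_vec C V hC hV (fun w => (z w).im)
  have h3 : ∑ w, ‖z w‖ ^ 2 = ∑ w, (z w).re ^ 2 + ∑ w, (z w).im ^ 2 := by
    rw [← sum_add_distrib]
    refine sum_congr rfl fun w _ => ?_
    rw [← Complex.normSq_eq_norm_sq, Complex.normSq_apply]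
    ring
  rw [h3]
  have h4 : ∑ x, ∑ u, ‖∑ w, (C x u w : ℂ) * z w‖ ^ 2 =
      ∑ x, ∑ u, (∑ w, C x u w * (z w).re) ^ 2 + ∑ x, ∑ u, (∑ w, C x u w * (z w).im) ^ 2 := by
    rw [← sum_add_distrib]
    refine sum_congr rfl fun x _ => ?_
    rw [← sum_add_distrib]
    refine sum_congr rfl fun u _ => ?_
    exact norm_split _ _
  rw [h4]
  exact add_le_add h1 h2

/-- Cauchy inequality for the Frobenius norm of a product -/
lemma frob {r : ℕ} (A : Matrix (Fin r) (Fin r) ℝ) (c : Matrix (Fin r) (Fin r) ℂ) :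
    ∑ u, ∑ v, ‖∑ w, (A u w : ℂ) * c w v‖ ^ 2 ≤
      (∑ u, ∑ w, (A u w) ^ 2) * ∑ w, ∑ v, ‖c w v‖ ^ 2 := by
  have h1 : ∀ u v, ‖∑ w, (A u w : ℂ) * c w v‖ ^ 2 ≤
      (∑ w, (A u w) ^ 2) * ∑ w, ‖c w v‖ ^ 2 := by
    intro u v
    have h2 : ‖∑ w, (A u w : ℂ) * c w v‖ ≤ ∑ w, |A u w| * ‖c w v‖ := by
      refine (norm_sum_le _ _).trans (le_of_eq ?_)
      refine sum_congr rfl fun w _ => ?_
      rw [norm_mul, Complex.norm_real, Real.norm_eq_abs]
    have h3 := sum_mul_sq_le_sq_mul_sq univ (fun w => |A u w|) (fun w => ‖c w v‖)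
    simp only [sq_abs] at h3
    refine le_trans ?_ h3
    exact pow_le_pow_left₀ (norm_nonneg _) h2 2
  calc ∑ u, ∑ v, ‖∑ w, (A u w : ℂ) * c w v‖ ^ 2
      ≤ ∑ u, ∑ v, (∑ w, (A u w) ^ 2) * ∑ w, ‖c w v‖ ^ 2 :=
        sum_le_sum fun u _ => sum_le_sum fun v _ => h1 u v
    _ = (∑ u, ∑ w, (A u w) ^ 2) * ∑ v, ∑ w, ‖c w v‖ ^ 2 := by
        rw [sum_mul]
        refine sum_congr rfl fun u _ => ?_
        rw [mul_sum]
    _ = _ := by rw [sum_comm (f := fun v w => ‖c w v‖ ^ 2)]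

open scoped MatrixOrder in
/-- a root of a positive semidefinite matrix -/
lemma exists_root {r : ℕ} (V : Matrix (Fin r) (Fin r) ℝ) (h : V.PosSemidef) :
    ∃ C : Matrix (Fin r) (Fin r) ℝ, V = Cᵀ * C := by
  refine ⟨CFC.sqrt V, ?_⟩
  have h1 : (CFC.sqrt V)ᵀ = CFC.sqrt V := by
    have h2 := (CFC.sqrt_nonneg V).posSemidef.isHermitian
    rw [Matrix.IsHermitian, conjTranspose_eq_transpose_of_trivial] at h2
    exact h2
  rw [h1, CFC.sqrt_mul_sqrt_self V h.nonneg]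

theorem mid (hCHR : T_CHR) (hSCA : T_SCA) (hSPN : T_SPN) (hHIT : T_HIT) : T_MID := by
  intro p B d r k _ Q _ _ S V Ls La th be hLs hPD hV hV1 hk hth hag hLa hbe hbe1 hfin
  have hC' : ∀ x, ∃ C : Matrix (Fin r) (Fin r) ℝ, V x = Cᵀ * C :=
    fun x => exists_root (V x) (hV x)
  choose C hC using hC'
  obtain ⟨c, hc⟩ := hSPN p B d r k Q S V La
  obtain ⟨G, hG⟩ : ∃ G : (Fin B → Q → ZMod p) → Matrix (Fin r) (Fin r) ℝ,
      ∀ al, G al = (La • (1 : Matrix (Fin r) (Fin r) ℝ) - MM S V al) ^ k := ⟨_, fun _ => rfl⟩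
  have hVt : ∀ x, (V x)ᵀ = V x := fun x => by rw [hC, transpose_mul, transpose_transpose]
  have hMt : ∀ al, (MM S V al)ᵀ = MM S V al := by
    intro al
    unfold MM
    rw [transpose_sum]
    refine sum_congr rfl fun x _ => ?_
    rw [transpose_smul, hVt]
  have hGt : ∀ al, (G al)ᵀ = G al := by
    intro al
    rw [hG, transpose_pow, transpose_sub, transpose_smul, transpose_one, hMt]
  have hGG : ∀ al, (La • (1 : Matrix (Fin r) (Fin r) ℝ) - MM S V al) ^ (2 * k) =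
      G al * G al := by
    intro al
    rw [two_mul, pow_add, hG]
  have hGe : ∀ al u v, ((G al u v : ℝ) : ℂ) =
      ∑ ga ∈ spf p B k Q, c ga u v * chr ga al := by
    intro al u v
    have h1 := congrFun (congrFun (hc al) u) v
    rw [← hG, Matrix.map_apply, Matrix.sum_apply] at h1
    rw [h1]
    refine sum_congr rfl fun ga _ => ?_
    rw [Matrix.smul_apply, smul_eq_mul, mul_comm]
  obtain ⟨dd, hdd⟩ : ∃ dd : (Fin B → Q) → Fin r → Fin r → (Fin B → Q → ZMod p) → ℂ,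
      ∀ x u v ga, dd x u v ga = ∑ w, (C x u w : ℂ) * c ga w v := ⟨_, fun _ _ _ _ => rfl⟩
  have hCG : ∀ x al u v, (((C x * G al) u v : ℝ) : ℂ) =
      ∑ ga ∈ spf p B k Q, dd x u v ga * chr ga al := by
    intro x al u v
    rw [Matrix.mul_apply]
    push_cast
    simp_rw [hGe, mul_sum, hdd, sum_mul]
    rw [sum_comm]
    refine sum_congr rfl fun ga _ => sum_congr rfl fun w _ => ?_
    ring
  have hsq : ∀ t : ℝ, t ^ 2 = ‖(t : ℂ)‖ ^ 2 := by
    intro t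
    rw [Complex.norm_real, Real.norm_eq_abs, sq_abs]
  obtain ⟨N, hN⟩ : ∃ N : ℝ, N = (Fintype.card (Fin B → Q → ZMod p) : ℝ) := ⟨_, rfl⟩
  have hN0 : 0 ≤ N := by rw [hN]; positivity
  obtain ⟨F, hF⟩ : ∃ F : (Fin B → Q → ZMod p) → ℝ, ∀ ga, F ga = ∑ u, ∑ v, ‖c ga u v‖ ^ 2 :=
    ⟨_, fun _ => rfl⟩
  obtain ⟨N', hN'⟩ : ∃ N' : ℝ, N' = ∑ ga ∈ spf p B k Q, F ga := ⟨_, rfl⟩
  have hF0 : ∀ ga, 0 ≤ F ga := by
    intro ga
    rw [hF]
    positivity
  have hN'0 : 0 ≤ N' := by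
    rw [hN']
    exact sum_nonneg fun ga _ => hF0 ga
  -- the trace of the power
  have hTG : ∑ al : Fin B → Q → ZMod p,
      ((La • (1 : Matrix (Fin r) (Fin r) ℝ) - MM S V al) ^ (2 * k)).trace = N * N' := by
    have h1 : ∀ al, ((La • (1 : Matrix (Fin r) (Fin r) ℝ) - MM S V al) ^ (2 * k)).trace =
        ∑ u, ∑ v, ‖∑ ga ∈ spf p B k Q, c ga u v * chr ga al‖ ^ 2 := by
      intro al
      have h2 := tr_tt (G al)
      rw [hGt] at h2
      rw [hGG, h2]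
      refine sum_congr rfl fun u _ => sum_congr rfl fun v _ => ?_
      rw [hsq, hGe]
    simp_rw [h1]
    rw [sum_comm]
    have h3 : ∀ u, ∑ al : Fin B → Q → ZMod p, ∑ v, ‖∑ ga ∈ spf p B k Q, c ga u v * chr ga al‖ ^ 2 =
        N * ∑ ga ∈ spf p B k Q, ∑ v, ‖c ga u v‖ ^ 2 := by
      intro u
      rw [sum_comm]
      have h4 : ∀ v, ∑ al : Fin B → Q → ZMod p, ‖∑ ga ∈ spf p B k Q, c ga u v * chr ga al‖ ^ 2 =
          N * ∑ ga ∈ spf p B k Q, ‖c ga u v‖ ^ 2 := by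
        intro v
        rw [(hCHR p B Q).2 (spf p B k Q) (fun ga => c ga u v), hN]
      simp_rw [h4]
      rw [← mul_sum, sum_comm]
    simp_rw [h3]
    rw [← mul_sum, sum_comm, hN']
    congr 1
    refine sum_congr rfl fun ga _ => ?_
    rw [hF]
  -- the trace of the product
  have hTM : ∑ al : Fin B → Q → ZMod p,
      (MM S V al * (La • (1 : Matrix (Fin r) (Fin r) ℝ) - MM S V al) ^ (2 * k)).trace =
      ∑ t : (Fin B → Q) × Fin r × Fin r, ∑ al : Fin B → Q → ZMod p,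
        PD S al t.1 * ‖∑ ga ∈ spf p B k Q, dd t.1 t.2.1 t.2.2 ga * chr ga al‖ ^ 2 := by
    rw [sum_comm]
    refine sum_congr rfl fun al _ => ?_
    rw [hGG, MM, sum_mul, Matrix.trace_sum, Fintype.sum_prod_type]
    refine sum_congr rfl fun x _ => ?_
    rw [Matrix.smul_mul, Matrix.trace_smul, smul_eq_mul, hC, tr_sq _ _ (hGt al),
      Fintype.sum_prod_type, mul_sum]
    refine sum_congr rfl fun u _ => ?_
    rw [mul_sum]
    refine sum_congr rfl fun v _ => ?_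
    simp only
    rw [← hCG, ← hsq]
  obtain ⟨P, hP⟩ : ∃ P : (Fin B → Q) × Fin r × Fin r → ℝ,
      ∀ t, P t = ∑ ga ∈ spf p B k Q, ‖dd t.1 t.2.1 t.2.2 ga‖ ^ 2 := ⟨_, fun _ => rfl⟩
  obtain ⟨H, hH⟩ : ∃ H : (Fin B → Q) × Fin r × Fin r → ℝ,
      ∀ t, H t = ∑ ga ∈ (spf p B k Q).filter (fun ga => hit ga t.1 ∉ Ls),
        ‖dd t.1 t.2.1 t.2.2 ga‖ ^ 2 := ⟨_, fun _ => rfl⟩
  have hP0 : ∀ t, 0 ≤ P t := fun t => by rw [hP]; positivity
  have hH0 : ∀ t, 0 ≤ H t := fun t => by rw [hH]; positivity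
  have hone : ∀ t, -(La * N * (2 * (√(P t) * √(H t)) + H t)) ≤ ∑ al : Fin B → Q → ZMod p,
        PD S al t.1 * ‖∑ ga ∈ spf p B k Q, dd t.1 t.2.1 t.2.2 ga * chr ga al‖ ^ 2 := by
    intro t
    rw [hP, hH, hN]
    exact hSCA p B d Q S t.1 Ls La hLs (fun al => hPD al t.1) (spf p B k Q)
      (fun ga => dd t.1 t.2.1 t.2.2 ga)
  have hsum : -(La * N * (2 * (√(∑ t, P t) * √(∑ t, H t)) + ∑ t, H t)) ≤
      ∑ t : (Fin B → Q) × Fin r × Fin r, ∑ al : Fin B → Q → ZMod p,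
        PD S al t.1 * ‖∑ ga ∈ spf p B k Q, dd t.1 t.2.1 t.2.2 ga * chr ga al‖ ^ 2 := by
    refine le_trans ?_ (sum_le_sum fun t _ => hone t)
    rw [sum_neg_distrib, ← mul_sum, sum_add_distrib, ← mul_sum]
    have h5 : ∑ t, √(P t) * √(H t) ≤ √(∑ t, P t) * √(∑ t, H t) :=
      Real.sum_sqrt_mul_sqrt_le univ hP0 hH0
    have h6 : 0 ≤ La * N := mul_nonneg hLa hN0
    have h7 := mul_le_mul_of_nonneg_left h5 h6
    nlinarith [h7]
  -- the two sums
  have hPs : ∑ t, P t ≤ N' := by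
    have e1 : ∑ t, P t = ∑ ga ∈ spf p B k Q, ∑ v, ∑ x, ∑ u,
        ‖∑ w, (C x u w : ℂ) * c ga w v‖ ^ 2 := by
      simp_rw [hP]
      rw [sum_comm]
      refine sum_congr rfl fun ga _ => ?_
      rw [Fintype.sum_prod_type]
      simp_rw [Fintype.sum_prod_type, hdd]
      have e2 : ∀ x, ∑ u, ∑ v, ‖∑ w, (C x u w : ℂ) * c ga w v‖ ^ 2 =
          ∑ v, ∑ u, ‖∑ w, (C x u w : ℂ) * c ga w v‖ ^ 2 := fun x => sum_comm
      simp_rw [e2]
      rw [sum_comm]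
    rw [e1, hN']
    refine sum_le_sum fun ga _ => ?_
    rw [hF, sum_comm (f := fun u v => ‖c ga u v‖ ^ 2)]
    refine sum_le_sum fun v _ => ?_
    exact cplx_vec C V hC hV1 (fun w => c ga w v)
  have hHs : ∑ t, H t ≤ be ^ 2 * N' := by
    have e1 : ∑ t, H t = ∑ x, ∑ ga ∈ (spf p B k Q).filter (fun ga => hit ga x ∉ Ls),
        ∑ u, ∑ v, ‖∑ w, (C x u w : ℂ) * c ga w v‖ ^ 2 := by
      simp_rw [hH]
      rw [Fintype.sum_prod_type]
      refine sum_congr rfl fun x _ => ?_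
      have e0 : ∑ y : Fin r × Fin r, ∑ ga ∈ (spf p B k Q).filter (fun ga => hit ga x ∉ Ls),
          ‖dd x y.1 y.2 ga‖ ^ 2 = ∑ ga ∈ (spf p B k Q).filter (fun ga => hit ga x ∉ Ls),
          ∑ y : Fin r × Fin r, ‖dd x y.1 y.2 ga‖ ^ 2 := sum_comm
      refine e0.trans ?_
      refine sum_congr rfl fun ga _ => ?_
      rw [Fintype.sum_prod_type]
      simp_rw [hdd]
    have e2 : ∀ x, ∑ ga ∈ (spf p B k Q).filter (fun ga => hit ga x ∉ Ls),
        ∑ u, ∑ v, ‖∑ w, (C x u w : ℂ) * c ga w v‖ ^ 2 ≤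
        ∑ ga ∈ spf p B k Q, if hit ga x ∉ Ls then (V x).trace * F ga else 0 := by
      intro x
      rw [sum_filter]
      refine sum_le_sum fun ga _ => ?_
      split_ifs with h
      · exact le_rfl
      · have h8 := frob (C x) (c ga)
        rw [← tr_tt (C x), ← hC, ← hF] at h8
        exact h8
    rw [e1]
    refine (sum_le_sum fun x _ => e2 x).trans ?_
    rw [sum_comm, hN', mul_sum]
    refine sum_le_sum fun ga hga => ?_
    have e3 : ∑ x : Fin B → Q, (if hit ga x ∉ Ls then (V x).trace * F ga else 0) =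
        (∑ x with hit ga x ∉ Ls, (V x).trace) * F ga := by
      rw [sum_filter, sum_mul]
      refine sum_congr rfl fun x _ => ?_
      split_ifs <;> simp
    rw [e3]
    refine mul_le_mul_of_nonneg_right ?_ (hF0 ga)
    have hsp : Sparse k ga := by
      classical
      unfold spf at hga
      exact (mem_filter.mp hga).2
    refine (hHIT p B k Q ga Ls (fun x => (V x).trace) th hk hsp (fun x => ?_) hth hag).trans hfin
    exact (hV x).trace_nonneg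
  have hPs0 : 0 ≤ ∑ t, P t := sum_nonneg fun t _ => hP0 t
  have hHs0 : 0 ≤ ∑ t, H t := sum_nonneg fun t _ => hH0 t
  have hsqrt : √(∑ t, P t) * √(∑ t, H t) ≤ be * N' := by
    rw [← Real.sqrt_mul hPs0]
    have h9 : be * N' = √((be * N') ^ 2) := by
      rw [Real.sqrt_sq (mul_nonneg hbe hN'0)]
    rw [h9]
    refine Real.sqrt_le_sqrt ?_
    have h10 := mul_le_mul hPs hHs hHs0 hN'0
    nlinarith [h10]
  rw [hTM, hTG]
  refine le_trans ?_ hsum
  have h11 : 0 ≤ La * N := mul_nonneg hLa hN0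
  have h12 : 2 * (√(∑ t, P t) * √(∑ t, H t)) + ∑ t, H t ≤ 3 * (be * N') := by
    have h13 : be ^ 2 * N' ≤ be * N' := by
      refine mul_le_mul_of_nonneg_right ?_ hN'0
      nlinarith
    linarith
  have h14 := mul_le_mul_of_nonneg_left h12 h11
  nlinarith [h14]

end Pool.Agent.H2.SD
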